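import Pool.Agent.Work.MP_0cd883_co.Cube.Core
import Pool.Agent.Work.MP_0cd883_co.Cube.ModD1x
import Pool.Agent.Work.MP_0cd883_co.Cube.ModD2x
import Pool.Agent.Work.MP_0cd883_co.Cube.ModF
import Pool.Agent.Work.MP_0cd883_co.Cube.ModS4
import Pool.Agent.Work.MP_0cd883_co.Cube.ModT
import Pool.Agent.Work.MP_0cd883_co.Cube.ModV
import Pool.Agent.Work.MP_0cd883_co.Cube.ModW

/-!
The size of the largest sum-free subset of `[N]^d` for every dimension `d`:
`s_d(N) = (1 - m_d) N^d + O(d N^(d-1))`, where `m_d` is the minimum of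
`V_d(t) + V_d(d - 2t)` and `V_d(t)` is the volume of `{x ∈ [0,1]^d : ∑ x ≤ t}`; stability for
`d ≥ 3`; and the fact that slabs are not exactly extremal for `d ≥ 3`.
-/

namespace Pool.Agent.Results.MP_0cd883_co.AllDimensions

open Pool.Agent.Work.MP_0cd883_co Pool.Agent.Work.MP_0cd883_co.Cube Finset MeasureTheory

/-- the volume of the set of points of `[0,1]^d` with coordinate sum at most `t` -/
noncomputable def V (d : ℕ) (t : ℝ) : ℝ :=
  (volume {x : Fin d → ℝ | (∀ i, 0 ≤ x i ∧ x i ≤ 1) ∧ ∑ i, x i ≤ t}).toReal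

/-- `V d t + V d (d - 2t)`, the volume missed by the slab of points with `t < ∑ x ≤ 2t` -/
noncomputable def missed (d : ℕ) (t : ℝ) : ℝ := V d t + V d (d - 2 * t)

open Classical in
/-- the points of `[N]^d` of level between `c N` and `2 c N` -/
noncomputable def stripe (d N : ℕ) (c : ℝ) : Finset (Fin d → ℕ) :=
  (grid d N).filter fun x => c * N < ∑ i, (x i : ℝ) ∧ ∑ i, (x i : ℝ) ≤ 2 * c * N

theorem V_eq {d : ℕ} (hd : 1 ≤ d) (t : ℝ) : V d t = F d t := F_volume hd t

theorem missed_eq {d : ℕ} (hd : 1 ≤ d) (t : ℝ) : missed d t = F d t + F d (d - 2 * t) := by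
  unfold missed
  rw [V_eq hd, V_eq hd]

/-- The largest sum-free subset of `[N]^d`, for every `d` and `N`. -/
theorem result : ∀ d : ℕ, 1 ≤ d →
    (∀ t : ℝ, V d t = (1 / (d.factorial : ℝ)) *
      ∑ k ∈ range (d + 1), (-1 : ℝ) ^ k * (d.choose k : ℝ) * (max (t - k) 0) ^ d) ∧
    ∃ c : ℝ, (d : ℝ) / 3 < c ∧ c ≤ (d : ℝ) / 2 ∧ (∀ t : ℝ, t ≠ c → missed d c < missed d t) ∧
      (∀ N : ℕ, 1 ≤ N →
        |(maxSumFree d N : ℝ) - (1 - missed d c) * (N : ℝ) ^ d| ≤ 200 * d * (N : ℝ) ^ (d - 1)) ∧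
      (3 ≤ d → ∀ δ : ℝ, 0 < δ → ∃ η : ℝ, 0 < η ∧ ∃ N₀ : ℕ, ∀ N : ℕ, N₀ ≤ N →
        ∀ A : Finset (Fin d → ℕ), A ⊆ grid d N → SumFree A →
          (1 - η) * (maxSumFree d N : ℝ) ≤ A.card →
          (((A \ stripe d N c) ∪ (stripe d N c \ A)).card : ℝ) ≤ δ * (N : ℝ) ^ d) ∧
      (3 ≤ d → ∃ κ : ℝ, 0 < κ ∧ ∃ N₀ : ℕ, ∀ N : ℕ, N₀ ≤ N → ∀ v : ℕ,
        (((grid d N).filter fun x => v ≤ ∑ i, x i ∧ ∑ i, x i ≤ 2 * v - 1).card : ℝ) +
          κ * (N : ℝ) ^ (d - 1) ≤ maxSumFree d N) := by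
  intro d hd
  refine ⟨fun t => by rw [V_eq hd, F_formula hd], ?_⟩
  rcases (by omega : d = 1 ∨ d = 2 ∨ 3 ≤ d) with rfl | rfl | hd3
  · -- dimension one
    have e0 : missed 1 (1 / 2) = 1 / 2 := by
      rw [missed_eq le_rfl]
      have h1 : F 1 (1 / 2) = 1 / 2 := by
        show max (0 : ℝ) (min (1 / 2) 1) = 1 / 2
        norm_num
      have h2 : F 1 (((1 : ℕ) : ℝ) - 2 * (1 / 2)) = 0 := by
        show max (0 : ℝ) (min (((1 : ℕ) : ℝ) - 2 * (1 / 2)) 1) = 0
        norm_num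
      rw [h1, h2, add_zero]
    refine ⟨1 / 2, by norm_num, by norm_num, ?_, ?_, fun h => by omega, fun h => by omega⟩
    · intro t ht
      rw [e0, missed_eq le_rfl, Nat.cast_one]
      exact one_min t ht
    · intro N hN
      have h := one_dim N hN
      have e1 : (1 - missed 1 (1 / 2)) * (N : ℝ) ^ 1 = N / 2 := by
        rw [e0, pow_one]
        ring
      rw [e1]
      refine h.trans ?_
      norm_num
  · -- dimension two
    have hmin := unique_min (m := 1) le_rfl (c := 4 / 5) (by norm_num) (by norm_num)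
      (by
        have := two_crit
        rw [show ((1 : ℕ) : ℝ) + 1 - 2 * (4 / 5) = 2 / 5 by norm_num]
        exact this)
    refine ⟨4 / 5, by norm_num, by norm_num, ?_, ?_, fun h => by omega, fun h => by omega⟩
    · intro t ht
      rw [missed_eq (by norm_num), missed_eq (by norm_num)]
      have h := hmin t ht
      have e1 : ((2 : ℕ) : ℝ) = ((1 : ℕ) : ℝ) + 1 := by norm_num
      rw [e1]
      exact h
    · intro N hN
      rw [missed_eq (by norm_num)]
      have h := two_dim N hN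
      have hN0 : (0 : ℝ) ≤ N := by positivity
      have e1 : (1 - (F 2 (4 / 5) + F 2 (((2 : ℕ) : ℝ) - 2 * (4 / 5)))) =
          (1 - F 2 (4 / 5) - F 2 (2 - 2 * (4 / 5))) := by
        push_cast
        ring
      rw [e1]
      refine h.trans ?_
      push_cast
      simp only [Nat.reduceSub, pow_one]
      linarith
  · -- dimension at least three
    obtain ⟨m, rfl⟩ : ∃ m, d = m + 1 := ⟨d - 1, by omega⟩
    have hm : 2 ≤ m := by omega
    obtain ⟨c, u, κ₁, κ₂, hG⟩ := good_exists hm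
    have hu : ((m + 1 : ℕ) : ℝ) - 2 * c = u := by
      push_cast
      linarith [hG.sum]
    have hu' : (m : ℝ) + 1 - 2 * c = u := by linarith [hG.sum]
    have e0 : missed (m + 1) c = F (m + 1) c + F (m + 1) u := by
      rw [missed_eq (by omega), hu]
    refine ⟨c, hG.lt_c, hG.c_lt.le, ?_, ?_, ?_, ?_⟩
    · intro t ht
      rw [missed_eq (by omega), missed_eq (by omega)]
      have h1 := hG.lt_c
      have h2 := hG.c_lt
      push_cast at h1 h2 ⊢
      exact unique_min (by omega) h1 h2 (by rw [hu']; exact hG.crit) t ht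
    · intro N hN
      have h := main_ge3 hm hG L_main hN
      rw [e0, Nat.add_sub_cancel]
      have e1 : (1 - (F (m + 1) c + F (m + 1) u)) = 1 - F (m + 1) c - F (m + 1) u := by ring
      rw [e1]
      push_cast
      exact h
    · intro _ δ hδ
      obtain ⟨η, hη, N₀, hS⟩ := stability L_main hm hG hδ
      refine ⟨η / 2, by positivity, max N₀ (⌈400 * ((m : ℝ) + 1) / η⌉₊ + 1), ?_⟩
      intro N hN A hA hf hc
      have hN1 : N₀ ≤ N := (le_max_left _ _).trans hN
      have hN2 : ⌈400 * ((m : ℝ) + 1) / η⌉₊ + 1 ≤ N := (le_max_right _ _).trans hN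
      have hN3 : 1 ≤ N := by omega
      have hN0 : (0 : ℝ) < N := by exact_mod_cast hN3
      have hN4 : 400 * ((m : ℝ) + 1) / η ≤ N := by
        have h1 := Nat.le_ceil (400 * ((m : ℝ) + 1) / η)
        have h2 : ((⌈400 * ((m : ℝ) + 1) / η⌉₊ : ℕ) : ℝ) ≤ N := by
          exact_mod_cast (by omega : ⌈400 * ((m : ℝ) + 1) / η⌉₊ ≤ N)
        linarith
      rw [div_le_iff₀ hη] at hN4
      have h := main_ge3 hm hG L_main hN3
      rw [abs_le] at h
      refine hS N hN1 A hA hf ?_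
      have hmax : (maxSumFree (m + 1) N : ℝ) ≤ (N : ℝ) ^ (m + 1) := by
        obtain ⟨B, hB, _, hBc⟩ := exists_maxSumFree (m + 1) N
        rw [← hBc]
        have h1 := card_le_card hB
        have h2 : (grid (m + 1) N).card = N ^ (m + 1) := by
          unfold grid
          rw [Fintype.card_piFinset]
          simp
        rw [h2] at h1
        exact_mod_cast h1
      have h5 : (N : ℝ) ^ (m + 1) = N * (N : ℝ) ^ m := by ring
      have h6 : 200 * ((m : ℝ) + 1) * (N : ℝ) ^ m ≤ η / 2 * (N : ℝ) ^ (m + 1) := by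
        rw [h5]
        have h7 : 0 ≤ (N : ℝ) ^ m := by positivity
        nlinarith [mul_le_mul_of_nonneg_right hN4 h7]
      have h8 : η / 2 * (maxSumFree (m + 1) N : ℝ) ≤ η / 2 * (N : ℝ) ^ (m + 1) :=
        mul_le_mul_of_nonneg_left hmax (by positivity)
      nlinarith
    · intro _
      obtain ⟨κ, hκ, N₀, h⟩ := not_slab hm hG
      refine ⟨κ, hκ, N₀, fun N hN v => ?_⟩
      rw [Nat.add_sub_cancel]
      exact h N hN v

end Pool.Agent.Results.MP_0cd883_co.AllDimensions
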