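import Pool.Agent.Work.MP_0cd883_co.Exact.Closed
import Pool.Agent.Work.MP_0cd883_co.Rig.PartT

/-!
The size of the largest sum-free subset of `[N]^d` and all sum-free subsets of that size, for every
`d ≥ 2` and every sufficiently large `N` (for `d = 2`, every `N ≥ 8`).
-/

namespace Pool.Agent.Results.MP_0cd883_co.ExactValue

open Pool.Agent.Work.MP_0cd883_co Finset

/-- the number of points of `[n]^d` with coordinate sum `s` -/
def pts (d n s : ℕ) : ℕ := ((grid d n).filter fun x => ∑ i, x i = s).card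

/-- the extended slab: the points of `[N]^d` with coordinate sum in `[u, 2u-1]`, those with
coordinate sum below `u` and a coordinate equal to `N`, and those with coordinate sum above `2u-1`
and a coordinate equal to `1` -/
def extSlab (d N u : ℕ) : Finset (Fin d → ℕ) :=
  (grid d N).filter fun x => (u ≤ ∑ i, x i ∨ ∃ i, x i = N) ∧ (∑ i, x i < 2 * u ∨ ∃ i, x i = 1)

/-- the number of points of `[N]^d` outside the extended slab, in closed form -/
def gap (d N u : ℕ) : ℤ :=
  ∑ j ∈ range (d + 1), (-1 : ℤ) ^ j * (d.choose j : ℤ) *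
    (((u - 1 - j * (N - 1)).choose d : ℤ) + ((d * (N + 1) - 2 * u - j * (N - 1)).choose d : ℤ))

/-- the least `u ≥ d` for which `[N-1]^d` has at least as many points with coordinate sum `u` as
points with coordinate sum `d(N+1)-2u` or `d(N+1)-2u-1` -/
noncomputable def thr (d N : ℕ) : ℕ :=
  sInf {u | d ≤ u ∧ pts d (N - 1) (d * (N + 1) - 2 * u) + pts d (N - 1) (d * (N + 1) - 2 * u - 1) ≤
    pts d (N - 1) u}

theorem extSlab_eq (d N u : ℕ) : extSlab d N u = Exact.Astar d N u :=
  filter_congr fun _ _ => by rw [Nat.lt_iff_add_one_le]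

/-- For `d ≥ 2` and large `N`: `s_d(N) = N^d - gap d N (thr d N)`, where `thr d N` minimises
`gap d N`, and the extremal sets are the extended slab of level `thr d N` and, exactly when
`gap d N` takes the same value at `thr d N + 1`, the extended slab of level `thr d N + 1`. -/
theorem result : ∀ d : ℕ, 2 ≤ d → ∃ N₀ : ℕ, (d = 2 → N₀ = 8) ∧ ∀ N : ℕ, N₀ ≤ N →
    (maxSumFree d N : ℤ) = (N : ℤ) ^ d - gap d N (thr d N) ∧
    (∀ u : ℕ, gap d N (thr d N) ≤ gap d N u) ∧
    ∀ A : Finset (Fin d → ℕ), A ⊆ grid d N →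
      ((SumFree A ∧ A.card = maxSumFree d N) ↔
        A = extSlab d N (thr d N) ∨
        (pts d (N - 1) (thr d N) = pts d (N - 1) (d * (N + 1) - 2 * thr d N) +
            pts d (N - 1) (d * (N + 1) - 2 * thr d N - 1) ∧
          A = extSlab d N (thr d N + 1))) := by
  intro d hd
  simp only [extSlab_eq]
  rcases hd.lt_or_eq with hd3 | rfl
  · obtain ⟨m, rfl⟩ : ∃ m, d = m + 1 := ⟨d - 1, by omega⟩
    have hm : 2 ≤ m := by omega
    obtain ⟨c, u, κ₁, κ₂, hG⟩ := Cube.good_exists hm
    obtain ⟨N₀, h⟩ := Exact.at_large hm ⟨u, κ₁, κ₂, hG⟩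
      fun _ hε => Rig.part_t hm ⟨u, κ₁, κ₂, hG⟩ hε
    refine ⟨max 4 N₀, fun h2 => by omega, fun N hN => ?_⟩
    exact Exact.closed_of hd ((le_max_left _ _).trans hN) (h N ((le_max_right _ _).trans hN))
  · exact ⟨8, fun _ => rfl, fun N hN => Exact.closed_of le_rfl (by omega) (Exact.at_two hN)⟩

end Pool.Agent.Results.MP_0cd883_co.ExactValue
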