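import Pool.Agent.Work.MP_0cd883_co.Upper

/-!
The missing density `1 - s_d(N)/N^d` of the largest sum-free subset of `[N]^d` decays in `d` exactly
like `ρ^d`, up to a factor `e^{-6√d}/6` from below and `3` from above, where
`ρ = (1 - e^{-L}) e^{L/3} / L = 0.84…` and `L` solves `1/L - 1/(e^L - 1) = 1/3`.
-/

namespace Pool.Agent.Results.MP_0cd883_co.ExponentialRate

open Pool.Agent.Work.MP_0cd883_co Filter Topology

/-- two-sided bound for fixed `d` and large `N` -/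
theorem bounds {L : ℝ} (hL : Opt L) (hL2 : L < 13 / 6) {d : ℕ} (hd : 1 ≤ d) :
    ∀ᶠ N : ℕ in atTop,
      Real.exp (-6 * √d) / 6 * rho L ^ d ≤ 1 - (maxSumFree d N : ℝ) / (N : ℝ) ^ d ∧
      1 - (maxSumFree d N : ℝ) / (N : ℝ) ^ d ≤ 3 * rho L ^ d := by
  have hr := rho_pos hL.1
  have hd0 : (0 : ℝ) < d := by exact_mod_cast hd
  have hs : 0 < √(d : ℝ) := Real.sqrt_pos.2 hd0
  have hcast : Tendsto (fun N : ℕ => (N : ℝ)) atTop atTop := tendsto_natCast_atTop_atTop
  -- upper bound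
  have h1 : Tendsto (fun N : ℕ => 2 * (((N : ℝ) + 1) / N) ^ d) atTop (𝓝 2) := by
    have h2 : Tendsto (fun N : ℕ => (1 : ℝ) + 1 / N) atTop (𝓝 (1 + 0)) :=
      tendsto_const_nhds.add (tendsto_const_nhds.div_atTop hcast)
    have h3 : Tendsto (fun N : ℕ => 2 * ((1 : ℝ) + 1 / N) ^ d) atTop (𝓝 (2 * (1 + 0) ^ d)) :=
      (h2.pow d).const_mul 2
    simp only [add_zero, one_pow, mul_one] at h3
    refine h3.congr' ?_
    filter_upwards [eventually_ge_atTop 1] with N hN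
    have hN0 : (N : ℝ) ≠ 0 := by
      have : N ≠ 0 := by omega
      exact_mod_cast this
    congr 2
    field_simp
  have hup : ∀ᶠ N : ℕ in atTop, 1 - (maxSumFree d N : ℝ) / (N : ℝ) ^ d ≤ 3 * rho L ^ d := by
    filter_upwards [h1.eventually (gt_mem_nhds (by norm_num : (2 : ℝ) < 3)),
      eventually_ge_atTop 1] with N h2 hN
    refine (missing_le hL.1 hN).trans ?_
    gcongr
  -- lower bound
  have h4 : Tendsto (fun m : ℕ => ((m : ℝ) / (m + 2 : ℕ)) ^ d * Real.exp (-(L * d / m))) atTop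
      (𝓝 1) := by
    have h5 : Tendsto (fun m : ℕ => (1 : ℝ) - 2 / (m + 2)) atTop (𝓝 (1 - 0)) :=
      tendsto_const_nhds.sub
        (tendsto_const_nhds.div_atTop (tendsto_atTop_add_const_right _ _ hcast))
    have h6 : Tendsto (fun m : ℕ => Real.exp (-(L * d / m))) atTop (𝓝 (Real.exp (-0))) :=
      (Real.continuous_exp.tendsto _).comp (tendsto_const_nhds.div_atTop hcast).neg
    have h7 := (h5.pow d).mul h6
    simp only [sub_zero, one_pow, neg_zero, Real.exp_zero, mul_one] at h7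
    refine h7.congr fun m => ?_
    congr 2
    have : (m : ℝ) + 2 ≠ 0 := by positivity
    push_cast
    field_simp
    ring
  have h8 : Real.exp (-(6 - 65 / 12) * √d) < 1 := by
    apply Real.exp_lt_one_iff.2
    nlinarith
  have hlow : ∀ᶠ m : ℕ in atTop,
      Real.exp (-6 * √d) / 6 * rho L ^ d ≤
        1 - (maxSumFree d (m + 2) : ℝ) / ((m + 2 : ℕ) : ℝ) ^ d := by
    filter_upwards [h4.eventually (lt_mem_nhds h8), eventually_ge_atTop 1] with m h9 hm
    refine le_trans ?_ (le_missing hL hm hd)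
    have h10 : Real.exp (-6 * √d) = Real.exp (-(6 - 65 / 12) * √d) * Real.exp (-(65 / 12 * √d)) := by
      rw [← Real.exp_add]
      congr 1
      ring
    have h11 : Real.exp (-(65 / 12 * √d)) ≤ Real.exp (-(5 / 2 * L * √d)) := by
      apply Real.exp_le_exp.2
      nlinarith
    calc Real.exp (-6 * √d) / 6 * rho L ^ d
        = 1 / 6 * (Real.exp (-(6 - 65 / 12) * √d) * Real.exp (-(65 / 12 * √d))) * rho L ^ d := by
          rw [h10]; ring
      _ ≤ 1 / 6 * ((((m : ℝ) / (m + 2 : ℕ)) ^ d * Real.exp (-(L * d / m))) *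
            Real.exp (-(5 / 2 * L * √d))) * rho L ^ d := by
          gcongr
      _ = _ := by ring
  have hlow' : ∀ᶠ N : ℕ in atTop,
      Real.exp (-6 * √d) / 6 * rho L ^ d ≤ 1 - (maxSumFree d N : ℝ) / (N : ℝ) ^ d := by
    obtain ⟨m₀, hm₀⟩ := eventually_atTop.1 hlow
    filter_upwards [eventually_ge_atTop (m₀ + 2)] with N hN
    obtain ⟨m, rfl⟩ : ∃ m, N = m + 2 := ⟨N - 2, by omega⟩
    exact hm₀ m (by omega)
  exact hlow'.and hup

lemma missing_nonneg (d N : ℕ) : 0 ≤ 1 - (maxSumFree d N : ℝ) / (N : ℝ) ^ d := by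
  obtain ⟨A, hA, -, hc⟩ := exists_maxSumFree d N
  have h1 : (maxSumFree d N : ℝ) ≤ (N : ℝ) ^ d := by
    rw [← hc]
    exact_mod_cast (Finset.card_le_card hA).trans (card_grid d N).le
  have h2 : (maxSumFree d N : ℝ) / (N : ℝ) ^ d ≤ 1 := div_le_one_of_le₀ h1 (by positivity)
  linarith

lemma missing_le_one (d N : ℕ) : 1 - (maxSumFree d N : ℝ) / (N : ℝ) ^ d ≤ 1 := by
  have : 0 ≤ (maxSumFree d N : ℝ) / (N : ℝ) ^ d := by positivity
  linarith

theorem result : ∃ L ρ : ℝ, 15 / 7 < L ∧ L < 13 / 6 ∧ 1 / L - 1 / (Real.exp L - 1) = 1 / 3 ∧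
    ρ = (1 - Real.exp (-L)) * Real.exp (L / 3) / L ∧ 0.84 < ρ ∧ ρ < 0.845 ∧
    (∀ d : ℕ, 1 ≤ d → ∀ᶠ N : ℕ in atTop,
      Real.exp (-6 * √d) / 6 * ρ ^ d ≤ 1 - (maxSumFree d N : ℝ) / (N : ℝ) ^ d ∧
      1 - (maxSumFree d N : ℝ) / (N : ℝ) ^ d ≤ 3 * ρ ^ d) ∧
    Tendsto (fun d : ℕ =>
      (liminf (fun N : ℕ => 1 - (maxSumFree d N : ℝ) / (N : ℝ) ^ d) atTop) ^ (1 / (d : ℝ)))
      atTop (𝓝 ρ) ∧
    Tendsto (fun d : ℕ =>
      (limsup (fun N : ℕ => 1 - (maxSumFree d N : ℝ) / (N : ℝ) ^ d) atTop) ^ (1 / (d : ℝ)))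
      atTop (𝓝 ρ) := by
  obtain ⟨L, hL1, hL2, hL⟩ := exists_opt
  obtain ⟨hr1, hr2⟩ := rho_bounds hL hL1 hL2
  have hr := rho_pos hL.1
  have hb := fun (d : ℕ) (hd : 1 ≤ d) => bounds hL hL2 hd
  have hbdd : ∀ d : ℕ, IsBoundedUnder (· ≤ ·) atTop
      (fun N : ℕ => 1 - (maxSumFree d N : ℝ) / (N : ℝ) ^ d) := fun d =>
    isBoundedUnder_of ⟨1, missing_le_one d⟩
  have hbdd' : ∀ d : ℕ, IsBoundedUnder (· ≥ ·) atTop
      (fun N : ℕ => 1 - (maxSumFree d N : ℝ) / (N : ℝ) ^ d) := fun d =>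
    isBoundedUnder_of ⟨0, missing_nonneg d⟩
  have hlo : ∀ d : ℕ, 1 ≤ d → Real.exp (-6 * √d) / 6 * rho L ^ d ≤
      liminf (fun N : ℕ => 1 - (maxSumFree d N : ℝ) / (N : ℝ) ^ d) atTop := fun d hd =>
    le_liminf_of_le (hbdd d).isCoboundedUnder_ge ((hb d hd).mono fun _ h => h.1)
  have hhi : ∀ d : ℕ, 1 ≤ d →
      limsup (fun N : ℕ => 1 - (maxSumFree d N : ℝ) / (N : ℝ) ^ d) atTop ≤ 3 * rho L ^ d :=
    fun d hd => limsup_le_of_le (hbdd' d).isCoboundedUnder_le ((hb d hd).mono fun _ h => h.2)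
  have hle : ∀ d : ℕ, liminf (fun N : ℕ => 1 - (maxSumFree d N : ℝ) / (N : ℝ) ^ d) atTop ≤
      limsup (fun N : ℕ => 1 - (maxSumFree d N : ℝ) / (N : ℝ) ^ d) atTop := fun d =>
    liminf_le_limsup (hbdd d) (hbdd' d)
  have hcast : Tendsto (fun d : ℕ => (d : ℝ)) atTop atTop := tendsto_natCast_atTop_atTop
  have hinv : Tendsto (fun d : ℕ => 1 / (d : ℝ)) atTop (𝓝 0) := tendsto_const_nhds.div_atTop hcast
  have hup : Tendsto (fun d : ℕ => (3 * rho L ^ d) ^ (1 / (d : ℝ))) atTop (𝓝 (rho L)) := by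
    have h1 : Tendsto (fun d : ℕ => (3 : ℝ) ^ (1 / (d : ℝ)) * rho L) atTop
        (𝓝 ((3 : ℝ) ^ (0 : ℝ) * rho L)) :=
      (((Real.continuous_const_rpow (by norm_num : (3 : ℝ) ≠ 0)).tendsto 0).comp hinv).mul_const _
    rw [Real.rpow_zero, one_mul] at h1
    refine h1.congr' ?_
    filter_upwards [eventually_ge_atTop 1] with d hd
    rw [Real.mul_rpow (by norm_num) (by positivity), ← Real.rpow_natCast, ← Real.rpow_mul hr.le,
      mul_one_div_cancel (by have : d ≠ 0 := by omega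
                             exact_mod_cast this), Real.rpow_one]
  have hdown : Tendsto (fun d : ℕ => (Real.exp (-6 * √d) / 6 * rho L ^ d) ^ (1 / (d : ℝ))) atTop
      (𝓝 (rho L)) := by
    have h0 : Tendsto (fun d : ℕ => -6 * (1 / √(d : ℝ))) atTop (𝓝 (-6 * 0)) :=
      (tendsto_const_nhds.div_atTop (Real.tendsto_sqrt_atTop.comp hcast)).const_mul _
    have h1 : Tendsto (fun d : ℕ => Real.exp (-6 * (1 / √(d : ℝ))) * (1 / 6 : ℝ) ^ (1 / (d : ℝ)) *
        rho L) atTop (𝓝 (Real.exp (-6 * 0) * (1 / 6 : ℝ) ^ (0 : ℝ) * rho L)) :=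
      (((Real.continuous_exp.tendsto _).comp h0).mul
        (((Real.continuous_const_rpow (by norm_num : (1 / 6 : ℝ) ≠ 0)).tendsto 0).comp
          hinv)).mul_const _
    rw [mul_zero, Real.exp_zero, Real.rpow_zero, one_mul, one_mul] at h1
    refine h1.congr' ?_
    filter_upwards [eventually_ge_atTop 1] with d hd
    have hd0 : (0 : ℝ) < d := by exact_mod_cast hd
    have hs : 0 < √(d : ℝ) := Real.sqrt_pos.2 hd0
    rw [div_eq_mul_one_div (Real.exp (-6 * √(d : ℝ))), Real.mul_rpow (by positivity)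
      (by positivity), Real.mul_rpow (by positivity) (by positivity), ← Real.rpow_natCast (rho L),
      ← Real.rpow_mul hr.le, mul_one_div_cancel hd0.ne', Real.rpow_one, ← Real.exp_mul]
    congr 3
    have hss : √(d : ℝ) * √(d : ℝ) = d := Real.mul_self_sqrt hd0.le
    field_simp
    nlinarith
  refine ⟨L, rho L, hL1, hL2, hL.2, rfl, hr1, hr2, hb, ?_, ?_⟩
  · refine tendsto_of_tendsto_of_tendsto_of_le_of_le' hdown hup ?_ ?_
    · filter_upwards [eventually_ge_atTop 1] with d hd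
      exact Real.rpow_le_rpow (by positivity) (hlo d hd) (by positivity)
    · filter_upwards [eventually_ge_atTop 1] with d hd
      refine Real.rpow_le_rpow ?_ ((hle d).trans (hhi d hd)) (by positivity)
      exact le_trans (by positivity) (hlo d hd)
  · refine tendsto_of_tendsto_of_tendsto_of_le_of_le' hdown hup ?_ ?_
    · filter_upwards [eventually_ge_atTop 1] with d hd
      exact Real.rpow_le_rpow (by positivity) ((hlo d hd).trans (hle d)) (by positivity)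
    · filter_upwards [eventually_ge_atTop 1] with d hd
      refine Real.rpow_le_rpow ?_ (hhi d hd) (by positivity)
      exact le_trans (by positivity) ((hlo d hd).trans (hle d))

end Pool.Agent.Results.MP_0cd883_co.ExponentialRate
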