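import Pool.Agent.Work.MP_0cd883_co.PlaneMain2

/-!
The size of the largest sum-free subset of `[N]²` and all sum-free subsets of that size, for
every `N`.
-/

namespace Pool.Agent.Results.MP_0cd883_co.GridPlane

open Pool.Agent.Work.MP_0cd883_co

/-- the points of `[N]²` with coordinate sum between `a` and `b` -/
def band (N a b : ℕ) : Finset (Fin 2 → ℕ) :=
  (grid 2 N).filter fun x => a ≤ x 0 + x 1 ∧ x 0 + x 1 ≤ b

/-- `s_2(N) = ⌊3 N (N + 1) / 5⌋` for every `N`, and the sum-free sets of this size in `[N]²` are the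
slab `u ≤ x + y ≤ 2u - 1` with `u = ⌊(4N + 6)/5⌋`, for `N ≡ 2 (mod 5)` also the slab with
`u = (4N + 7)/5`, and two more sets for `N = 3` and three more sets for `N = 7`. -/
theorem result : ∀ N : ℕ, maxSumFree 2 N = 3 * N * (N + 1) / 5 ∧
    ∀ A : Finset (Fin 2 → ℕ), A ⊆ grid 2 N → SumFree A →
      (A.card = maxSumFree 2 N ↔
        A = band N ((4 * N + 6) / 5) (2 * ((4 * N + 6) / 5) - 1) ∨
        (N % 5 = 2 ∧ A = band N ((4 * N + 7) / 5) (2 * ((4 * N + 7) / 5) - 1)) ∨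
        (N = 3 ∧ (A = band 3 4 6 ∪ {![1, 2]} ∨ A = band 3 4 6 ∪ {![2, 1]})) ∨
        (N = 7 ∧ (A = band 7 7 12 ∪ {![1, 5], ![2, 4]} ∨ A = band 7 7 12 ∪ {![5, 1], ![4, 2]} ∨
          A = (band 7 7 12 \ {![6, 6]}) ∪ {![1, 5], ![3, 3], ![5, 1]}))) := by
  intro N
  refine ⟨Plane.maxSumFree_two N, fun A hsub hfree => ?_⟩
  have h := Plane.extremal_two N A hsub hfree
  exact h

end Pool.Agent.Results.MP_0cd883_co.GridPlane
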